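import Pool.Agent.TH423.PO.AllQ

set_option autoImplicit false

open Finset Filter Topology Polynomial

namespace Pool.Agent.Results.MP_f1a94e_nt.AllClassesOfOmega

/-- a nonzero integer with at most `R` prime factors (with multiplicity), all larger than `y` -/
def AlmostPrime (y : ℝ) (R : ℕ) (m : ℤ) : Prop :=
  m ≠ 0 ∧ (∀ p : ℕ, p.Prime → (p : ℤ) ∣ m → y < p) ∧ ArithmeticFunction.cardFactors m.natAbs ≤ R

/-- The number of integers `1 ≤ n ≤ X` for which `f(n) = a n ^ 2 + b n + c` is positive, `f(n)` and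
all the `g_j(n)` are almost prime (at most `R` prime factors, all larger than `X ^ δ`) and
`Ω(f(n)) ≡ v (mod k)`. -/
noncomputable def count (k : ℕ) (a b c : ℤ) {s : ℕ} (g : Fin s → ℤ[X]) (R : ℕ) (δ : ℝ) (X : ℕ)
    (v : ZMod k) : ℕ :=
  {n : ℕ | 1 ≤ n ∧ n ≤ X ∧ 0 < a * (n : ℤ) ^ 2 + b * n + c ∧
    AlmostPrime ((X : ℝ) ^ δ) R (a * (n : ℤ) ^ 2 + b * n + c) ∧
    (∀ j, AlmostPrime ((X : ℝ) ^ δ) R ((g j).eval (n : ℤ))) ∧
    ((ArithmeticFunction.cardFactors (a * (n : ℤ) ^ 2 + b * n + c).natAbs : ℕ) : ZMod k) =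
      v}.ncard

/-- Let `k ≥ 1`, let `f = a x ^ 2 + b x + c` be a quadratic polynomial with `a > 0` and discriminant
`≠ 0`, and let `g_1, ..., g_s` be integer polynomials (for instance none) such that for every prime `p`
some integer `n` makes `f(n)` and all `g_j(n)` prime to `p`. Let `ε > 0`. There are `R`, `X₀` and
`δ > 0` such that for all `X ≥ X₀`:

(1) if `k` is odd, EVERY class `v` modulo `k` contains `Ω(f(n))` for at least `X ^ (1 - ε)` integers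
`1 ≤ n ≤ X` for which `f(n) > 0` and `f(n)`, `g_1(n), ..., g_s(n)` are almost prime (at most `R` prime
factors, all larger than `X ^ δ`);

(2) for every `k`, this holds for ALL the classes `2 d` (`d` modulo `k`) or for ALL the classes
`2 d + 1`. -/
theorem result (k : ℕ) (hk : 1 ≤ k) (a b c : ℤ) (ha : 0 < a) (hD : b ^ 2 - 4 * a * c ≠ 0) (s : ℕ)
    (g : Fin s → ℤ[X])
    (hadm : ∀ p : ℕ, p.Prime → ∃ n : ℤ, ¬ (p : ℤ) ∣ a * n ^ 2 + b * n + c ∧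
      ∀ j, ¬ (p : ℤ) ∣ (g j).eval n) (ε : ℝ) (hε : 0 < ε) :
    ∃ R X₀ : ℕ, ∃ δ : ℝ, 0 < δ ∧ ∀ X : ℕ, X₀ ≤ X →
      (Odd k → ∀ v : ZMod k, (X : ℝ) ^ (1 - ε) ≤ (count k a b c g R δ X v : ℝ)) ∧
      ((∀ d : ZMod k, (X : ℝ) ^ (1 - ε) ≤ (count k a b c g R δ X (2 * d) : ℝ)) ∨
        (∀ d : ZMod k, (X : ℝ) ^ (1 - ε) ≤ (count k a b c g R δ X (2 * d + 1) : ℝ))) := by
  classical
  obtain ⟨R, X₀, δ, hδ, hmain⟩ :=
    Pool.Agent.TH423.PO.mainQ Pool.Agent.TH423.PO.qct_all k hk a b c ha hD g hadm ε hε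
  refine ⟨R, X₀, δ, hδ, fun X hX => ?_⟩
  have h := hmain X hX (fun v => {n : ℕ | 1 ≤ n ∧ n ≤ X ∧ 0 < a * (n : ℤ) ^ 2 + b * n + c ∧
    AlmostPrime ((X : ℝ) ^ δ) R (a * (n : ℤ) ^ 2 + b * n + c) ∧
    (∀ j, AlmostPrime ((X : ℝ) ^ δ) R ((g j).eval (n : ℤ))) ∧
    ((ArithmeticFunction.cardFactors (a * (n : ℤ) ^ 2 + b * n + c).natAbs : ℕ) : ZMod k) =
      v}) (fun _ => rfl)
  refine ⟨fun hodd v => ?_, h⟩
  obtain ⟨w, hw⟩ : IsUnit (2 : ZMod k) := by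
    have : IsUnit ((2 : ℕ) : ZMod k) := by
      rw [ZMod.isUnit_iff_coprime]
      exact (Nat.coprime_two_left.2 hodd)
    simpa using this
  rcases h with h | h
  · have h2 : v = 2 * (↑w⁻¹ * v) := by
      rw [← hw, ← mul_assoc, Units.mul_inv, one_mul]
    rw [h2]
    exact h _
  · have h2 : v = 2 * (↑w⁻¹ * (v - 1)) + 1 := by
      rw [← hw, ← mul_assoc, Units.mul_inv, one_mul]
      ring
    rw [h2]
    exact h _

end Pool.Agent.Results.MP_f1a94e_nt.AllClassesOfOmega
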