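import Pool.Agent.TH464.PO.PolyExact
import Pool.Agent.TH464.PO.SqOne

set_option autoImplicit false

/-!
# `m ^ 2 + 1`: the density in all windows around almost all of the almost prime values

Let `θ > 0` and `ε > 0`. There are `K` and `r0` such that for every `r ≥ r0` and all large `X` the
following holds. Call `m` good if `m ^ 2 + 1` has at most `2 r` prime factors, all larger than
`X ^ (1 / r)`, and let `V` be the product of `1 - ρ(p) / p` over the primes `p ≤ X ^ (1 / r)`. Then in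
EVERY interval `(X, X + Y]` with `X ^ θ ≤ Y ≤ X`, for all but at most `ε Y V` of its good integers `m`
(there are about `Y V` of them), ALL windows `(u, v]` around `m` inside `(X, X + Y]` of length at least
`K / V` contain `(1 ± ε) (v - u) V` good integers.
-/

namespace Pool.Agent.Results.MP_f1a94e_nt.ExactNeighbours

open Finset Filter

/-- `m ^ 2 + 1` has at most `2 r` prime factors (with multiplicity), all larger than `X ^ (1 / r)`. -/
def AlmostPrimeValue (r X m : ℕ) : Prop :=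
  (m ^ 2 + 1).primeFactorsList.length ≤ 2 * r ∧
    ∀ p : ℕ, p.Prime → p ∣ m ^ 2 + 1 → (X : ℝ) ^ (1 / (r : ℝ)) < (p : ℝ)

open Classical in
/-- The number of the good `k` in `(u, v]`. -/
noncomputable def N (r X u v : ℕ) : ℕ :=
  ((Finset.Ioc u v).filter (fun k => AlmostPrimeValue r X k)).card

open Classical in
/-- The sieve density: the product of `1 - ρ(p) / p` over the primes `p ≤ X ^ (1 / r)`, where `ρ(p)` is
the number of the `a` mod `p` with `p ∣ a ^ 2 + 1`. -/
noncomputable def V (r X : ℕ) : ℝ :=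
  ∏ p ∈ (Finset.range (⌊(X : ℝ) ^ (1 / (r : ℝ))⌋₊ + 1)).filter Nat.Prime,
    (1 - (((Finset.range p).filter (fun a => p ∣ a ^ 2 + 1)).card : ℝ) / p)

/-- All windows around `m` inside `(X, X + Y]` of length at least `K / V` have the density `V` up to
`ε`. -/
def AllWindows (r : ℕ) (K ε : ℝ) (X Y m : ℕ) : Prop :=
  ∀ u v : ℕ, X ≤ u → u < m → m ≤ v → v ≤ X + Y → K ≤ ((v : ℝ) - u) * V r X →
    |(N r X u v : ℝ) - (v - u) * V r X| ≤ ε * ((v - u) * V r X)

open Pool.Agent.TH464.PO Pool.Agent.W123.RU.Poly Pool.Agent.W123.RP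

open Classical in
/-- **The density in all windows around almost all of the almost prime values.** -/
theorem result (θ : ℝ) (hθ : 0 < θ) (ε : ℝ) (hε : 0 < ε) :
    ∃ (K : ℝ) (r0 : ℕ), 0 < K ∧ ∀ r : ℕ, r0 ≤ r → ∀ᶠ X : ℕ in atTop, ∀ Y : ℕ, (X : ℝ) ^ θ ≤ Y → Y ≤ X →
      (((Finset.Ioc X (X + Y)).filter
        (fun m => AlmostPrimeValue r X m ∧ ¬ AllWindows r K ε X Y m)).card : ℝ) ≤ ε * (Y * V r X) := by
  obtain ⟨K, r0, hK, h0⟩ := exact_poly sq sq_sys sq_noTr θ hθ ε hε
  refine ⟨K, max r0 1, hK, ?_⟩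
  intro r hr
  have hr1 : 1 ≤ r := (le_max_right _ _).trans hr
  have hrpos : (0 : ℝ) < r := by exact_mod_cast hr1
  have hpow1 : Tendsto (fun X : ℕ => (X : ℝ) ^ (1 / (r : ℝ))) atTop atTop :=
    (tendsto_rpow_atTop (by positivity)).comp tendsto_natCast_atTop_atTop
  filter_upwards [h0 r ((le_max_left _ _).trans hr), hpow1.eventually_ge_atTop 10,
    eventually_ge_atTop 1] with X hX h10 hX1
  intro Y hXY hYX
  have hap : ∀ m : ℕ, m ≤ 3 * X → (Sf (Q sq) ⌊(X : ℝ) ^ (1 / (r : ℝ))⌋₊ m ↔ AlmostPrimeValue r X m) :=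
    fun m hm => sf_AP r hr1 X hX1 h10 m hm
  have hV : Vq (Q sq) ⌊(X : ℝ) ^ (1 / (r : ℝ))⌋₊ = V r X := sq_V _
  have hmain := (hX Y hXY hYX).2
  rw [hV] at hmain
  refine le_trans ?_ hmain
  have hsub : (Finset.Ioc X (X + Y)).filter (fun m => AlmostPrimeValue r X m ∧
      ¬ AllWindows r K ε X Y m) ⊆
      (Finset.Ioc X (X + Y)).filter (fun n => Sf (Q sq) ⌊(X : ℝ) ^ (1 / (r : ℝ))⌋₊ n ∧
        ¬ Exact (Sf (Q sq) ⌊(X : ℝ) ^ (1 / (r : ℝ))⌋₊) (V r X) K ε X Y n) := by
    intro n hn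
    rw [mem_filter] at hn ⊢
    have hn1 := mem_Ioc.1 hn.1
    refine ⟨hn.1, (hap n (by omega)).2 hn.2.1, fun hex => hn.2.2 ?_⟩
    intro u v hu hun hnv hv hKV
    have h1 := hex u v hu hun hnv hv hKV
    have hN : N r X u v = Cc (Sf (Q sq) ⌊(X : ℝ) ^ (1 / (r : ℝ))⌋₊) u v := by
      unfold N Cc
      congr 1
      apply Finset.filter_congr
      intro m hm
      rw [mem_Ioc] at hm
      exact (hap m (by omega)).symm
    rw [hN]
    exact h1
  exact_mod_cast card_le_card hsub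

end Pool.Agent.Results.MP_f1a94e_nt.ExactNeighbours
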