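import Pool.Agent.TH464.PO.MomLaw
import Pool.Agent.TH464.PO.SqOne

set_option autoImplicit false

/-!
# `m ^ 2 + 1`: all moments of the counts of the almost prime values in several windows

Let `m` be good if `m ^ 2 + 1` has at most `2 r` prime factors, all larger than `X ^ (1 / r)`, and let
`V` be the product of `1 - ρ(p) / p` over the primes `p ≤ X ^ (1 / r)`. Given `θ > 0`, exponents
`e_1, ..., e_s`, a size `x` and an accuracy `ε`, for all `r ≥ r0`, all large `X`, ALL `Y` with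
`X ^ θ ≤ Y ≤ X` and ALL disjoint windows `(a_i, b_i]`, `i = 1, ..., s`, with `b_i V ≤ x`: the mean over
`n` in `(X, X + Y]` of the product of the binomial coefficients `C(N_i, e_i)`, `N_i` the number of the
good integers in the window `(n + a_i, n + b_i]`, is the product of the `((b_i - a_i) V) ^ e_i / e_i!`,
up to `ε`.
-/

namespace Pool.Agent.Results.MP_f1a94e_nt.JointMoments

open Finset Filter

/-- `m` is good: `m ^ 2 + 1` has at most `2 r` prime factors (with multiplicity), all larger than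
`X ^ (1 / r)`. -/
def Good (r X m : ℕ) : Prop :=
  (m ^ 2 + 1).primeFactorsList.length ≤ 2 * r ∧
    ∀ p : ℕ, p.Prime → p ∣ m ^ 2 + 1 → (X : ℝ) ^ (1 / (r : ℝ)) < (p : ℝ)

open Classical in
/-- The sieve density: the product of `1 - ρ(p) / p` over the primes `p ≤ X ^ (1 / r)`, where `ρ(p)` is
the number of the `a` mod `p` with `p ∣ a ^ 2 + 1`. -/
noncomputable def V (r X : ℕ) : ℝ :=
  ∏ p ∈ (Finset.range (⌊(X : ℝ) ^ (1 / (r : ℝ))⌋₊ + 1)).filter Nat.Prime,
    (1 - (((Finset.range p).filter (fun a => p ∣ a ^ 2 + 1)).card : ℝ) / p)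

open Classical in
/-- The number of the good `m` in `(u, v]`. -/
noncomputable def N (r X u v : ℕ) : ℕ :=
  ((Finset.Ioc u v).filter (fun m => Good r X m)).card

open Pool.Agent.TH464.PO Pool.Agent.W123.RU.Poly Pool.Agent.W123.RP

lemma good_iff (r : ℕ) (hr : 1 ≤ r) : ∀ᶠ X : ℕ in atTop, ∀ m : ℕ, m ≤ 3 * X →
    (Sf (Q sq) ⌊(X : ℝ) ^ (1 / (r : ℝ))⌋₊ m ↔ Good r X m) := by
  have hrpos : (0 : ℝ) < r := by exact_mod_cast hr
  have hpow1 : Tendsto (fun X : ℕ => (X : ℝ) ^ (1 / (r : ℝ))) atTop atTop :=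
    (tendsto_rpow_atTop (by positivity)).comp tendsto_natCast_atTop_atTop
  filter_upwards [hpow1.eventually_ge_atTop 10, eventually_ge_atTop 1] with X h10 hX1
  exact fun m hm => sf_AP r hr X hX1 h10 m hm

lemma V_eq (r X : ℕ) : Vq (Q sq) ⌊(X : ℝ) ^ (1 / (r : ℝ))⌋₊ = V r X := sq_V _

open Classical in
/-- **All mixed binomial moments of the counts in several windows, in every short interval.** -/
theorem result (θ : ℝ) (hθ : 0 < θ) (s : ℕ) (e : Fin s → ℕ) (x ε : ℝ) (hε : 0 < ε) :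
    ∃ r0 : ℕ, ∀ r : ℕ, r0 ≤ r → ∀ᶠ X : ℕ in atTop, ∀ Y : ℕ, (X : ℝ) ^ θ ≤ Y → Y ≤ X →
      ∀ a b : Fin s → ℕ, (∀ i, a i ≤ b i) → (∀ i, b i * V r X ≤ x) →
      (∀ i j, i ≠ j → b i ≤ a j ∨ b j ≤ a i) →
        |∑ n ∈ Finset.Ioc X (X + Y), ∏ i, (((N r X (n + a i) (n + b i)).choose (e i) : ℕ) : ℝ) -
          Y * ∏ i, ((((b i : ℝ) - a i) * V r X) ^ (e i) / (e i).factorial)| ≤ ε * Y :=
  pack_mom sq Good V sq_sys sq_noTr good_iff V_eq θ hθ e x ε hε

end Pool.Agent.Results.MP_f1a94e_nt.JointMoments
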