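import Pool.Agent.TH882.T1

/-!
Primes `n ^ 2 + b` with `n = p + t` for fixed `t` and primes `p` which have `m` other primes of the
same class modulo `q` at distance at most `ε log x`: for all but a proportion `κ` of the vectors
`(b_1, ..., b_r)` without local obstruction all `(p + t_j) ^ 2 + b_j` are prime for a number of such
`p ≤ x` of the right order.
-/

set_option autoImplicit false

open Finset Filter Topology Polynomial

namespace Pool.Agent.Results.MP_f1a94e_nt.ShiftsOfClusteredPrimes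

open Classical in
/-- The primes different from `p`, congruent to `p` modulo `q`, at distance at most `R` from `p`. -/
noncomputable def neighbours (q : ℕ) (R : ℝ) (p : ℕ) : Finset ℕ :=
  (Icc 1 (p + ⌊R⌋₊)).filter (fun p' => p'.Prime ∧ p' ≠ p ∧ p' % q = p % q ∧ |(p' : ℝ) - p| ≤ R)

/-- For every prime `l` there is an integer `n` such that `l` divides none of the numbers `n` and
`(n + t_j) ^ 2 + b_j`. -/
def Admissible {r : ℕ} (t : Fin r → ℤ) (b : Fin r → ℕ) : Prop :=
  ∀ l : ℕ, l.Prime → ∃ n : ℤ, ¬ (l : ℤ) ∣ n ∧ ∀ j, ¬ (l : ℤ) ∣ (n + t j) ^ 2 + b j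

open Classical in
/-- The primes `p ≤ x` with at least `m` neighbours at distance at most `ε * log x` for which all
`(p + t_j) ^ 2 + b_j` are prime. -/
noncomputable def arguments {r : ℕ} (t : Fin r → ℤ) (q m : ℕ) (ε : ℝ) (b : Fin r → ℕ) (x : ℕ) :
    Finset ℕ :=
  (Icc 1 x).filter (fun p => p.Prime ∧ m ≤ (neighbours q (ε * Real.log x) p).card ∧
    ∀ j, (((p : ℤ) + t j) ^ 2 + b j).toNat.Prime)

open Classical in
/-- The admissible vectors `1 ≤ b_j ≤ K x ^ 2` with few arguments. -/
noncomputable def exceptions {r : ℕ} (t : Fin r → ℤ) (q m : ℕ) (ε c : ℝ) (K x : ℕ) :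
    Finset (Fin r → ℕ) :=
  (Fintype.piFinset (fun _ : Fin r => Icc 1 (K * x ^ 2))).filter (fun b =>
    Admissible t b ∧ ((arguments t q m ε b x).card : ℝ) < c * (x / Real.log x ^ (r + 1)))

theorem result (r : ℕ) (t : Fin r → ℤ) (q m K : ℕ) (hq : 1 ≤ q) (ε κ : ℝ) (hε : 0 < ε)
    (hκ : 0 < κ) : (∃ c : ℝ, 0 < c ∧ ∃ x₀ : ℕ, ∀ x : ℕ, x₀ ≤ x →
      ((exceptions t q m ε c K x).card : ℝ) ≤ κ * ((x : ℝ) ^ 2) ^ r) ∧
    ∀ (t' : ℤ) (b : ℕ), Odd t' → ¬ (3 : ℤ) ∣ t' →
      (Admissible (fun _ : Fin 1 => t') (fun _ => b) ↔ Odd b) := by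
  classical
  have main : ∀ (r : ℕ) (t : Fin r → ℤ), ∃ g : Fin r → ℤ[X], (∀ j, (g j).natDegree = 2) ∧
      (∀ j, (g j).leadingCoeff = 1) ∧ ∀ j, ∀ n : ℤ, (g j).eval n = (n + t j) ^ 2 := by
    intro r t
    refine ⟨fun j => C 1 * X ^ 2 + C (2 * t j) * X + C (t j ^ 2), ?_, ?_, ?_⟩
    · intro j
      exact natDegree_quadratic one_ne_zero
    · intro j
      exact leadingCoeff_quadratic one_ne_zero
    · intro j n
      simp only [eval_add, eval_mul, eval_C, eval_pow, eval_X]
      ring
  constructor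
  · obtain ⟨g, hgd, hgl, hge⟩ := main r t
    obtain ⟨c, hc, x₀, h⟩ := Pool.Agent.TH882.KS.sys_most g
      (fun j => by rw [hgd j]; norm_num)
      (fun j => by rw [hgl j]; norm_num) (Pool.Agent.TH882.JS.KQ q m ε)
      (Pool.Agent.TH882.JS.KQ_most q m hq ε hε) K κ hκ
    refine ⟨c, hc, max x₀ 3, fun x hx => ?_⟩
    have hx0 : x₀ ≤ x := (le_max_left _ _).trans hx
    have hx1 : 3 ≤ x := (le_max_right _ _).trans hx
    have h1 := h x hx0
    have e0 : ∏ j, (x : ℝ) ^ (g j).natDegree = ((x : ℝ) ^ 2) ^ r := by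
      rw [prod_congr rfl fun j _ => by rw [hgd j]]
      rw [prod_const, card_univ, Fintype.card_fin]
    rw [e0] at h1
    refine le_trans ?_ h1
    apply Nat.cast_le.2
    apply card_le_card
    intro b hb
    unfold exceptions at hb
    rw [mem_filter, Fintype.mem_piFinset] at hb
    rw [mem_filter, Fintype.mem_piFinset]
    obtain ⟨hc1, hc2, hc3⟩ := hb
    refine ⟨fun j => ?_, ?_, lt_of_le_of_lt ?_ hc3⟩
    · rw [hgd j]
      exact hc1 j
    · intro l hlp
      obtain ⟨n, hn1, hn2⟩ := hc2 l hlp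
      refine ⟨n, hn1, fun j h => hn2 j ?_⟩
      rw [hge j n, one_mul, add_comm] at h
      exact h
    · apply Nat.cast_le.2
      apply card_le_card
      intro n hn
      unfold Pool.Agent.TH882.KS.SysA at hn
      rw [mem_filter, mem_Ico] at hn
      obtain ⟨⟨hn1, hn2⟩, hn3, hn4⟩ := hn
      obtain ⟨h5, h6⟩ := Pool.Agent.TH882.TS.nb_of q m ε hε 3 x (by omega) hx1 _ n hn3
        (neighbours q (ε * Real.log x) n) (by
          intro p hp1 hp2 hp3 hp4
          unfold neighbours
          rw [mem_filter, mem_Icc]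
          refine ⟨⟨hp1.pos, ?_⟩, hp1, hp2, hp3, hp4⟩
          have h7 := (abs_le.1 hp4).2
          have hlog0 : 0 ≤ Real.log (x : ℝ) := Real.log_natCast_nonneg x
          by_contra hcon
          push Not at hcon
          have h8 : ((n + ⌊ε * Real.log (x : ℝ)⌋₊ + 1 : ℕ) : ℝ) ≤ p := by exact_mod_cast hcon
          push_cast at h8
          have h9 := Nat.lt_floor_add_one (ε * Real.log (x : ℝ))
          linarith)
      unfold arguments
      rw [mem_filter, mem_Icc]
      refine ⟨⟨h5.pos, by omega⟩, h5, h6, fun j => ?_⟩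
      have h7 := hn4 j
      rw [hge j, add_comm] at h7
      exact h7
  · intro t' b ht ht3
    constructor
    · intro h
      obtain ⟨n, hn1, hn2⟩ := h 2 Nat.prime_two
      have h1 := hn2 0
      push_cast at h1 hn1
      rw [Nat.odd_iff]
      by_contra hcon
      apply h1
      obtain ⟨u, hu⟩ : ∃ u : ℤ, (b : ℤ) = 2 * u := ⟨b / 2, by omega⟩
      obtain ⟨k, hk⟩ : ∃ k : ℤ, n + t' = 2 * k := by
        rw [Int.odd_iff] at ht
        exact ⟨(n + t') / 2, by omega⟩
      exact ⟨2 * k ^ 2 + u, by rw [hk, hu]; ring⟩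
    · intro hb l hlp
      rw [Nat.odd_iff] at hb
      rw [Int.odd_iff] at ht
      rcases Nat.lt_or_ge l 4 with h4 | h4
      · have hl2 := hlp.two_le
        have h5 : l = 2 ∨ l = 3 := by omega
        rcases h5 with rfl | rfl
        · refine ⟨1, by norm_num, fun j hd => ?_⟩
          obtain ⟨k, hk⟩ : ∃ k : ℤ, 1 + t' = 2 * k := ⟨(1 + t') / 2, by omega⟩
          rw [hk] at hd
          have h6 : (2 * k) ^ 2 + (b : ℤ) = 2 * (2 * k ^ 2) + b := by ring
          rw [h6] at hd
          have h7 : (2 * (2 * k ^ 2) + (b : ℤ)) % 2 = 0 :=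
            Int.emod_eq_zero_of_dvd (by exact_mod_cast hd)
          omega
        · have h30 : t' % 3 = 1 ∨ t' % 3 = 2 := by omega
          by_cases hb3 : b % 3 = 0
          · -- here `n + t'` must be prime to `3`
            rcases h30 with h30 | h30
            · refine ⟨1, by norm_num, fun j hd => ?_⟩
              obtain ⟨k, hk⟩ : ∃ k : ℤ, 1 + t' = 3 * k + 2 := ⟨(1 + t') / 3, by omega⟩
              rw [hk] at hd
              have h6 : (3 * k + 2) ^ 2 + (b : ℤ) = 3 * (3 * k ^ 2 + 4 * k + 1) + 1 + b := by ring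
              rw [h6] at hd
              have h7 : (3 * (3 * k ^ 2 + 4 * k + 1) + 1 + (b : ℤ)) % 3 = 0 :=
                Int.emod_eq_zero_of_dvd (by exact_mod_cast hd)
              omega
            · refine ⟨2, by norm_num, fun j hd => ?_⟩
              obtain ⟨k, hk⟩ : ∃ k : ℤ, 2 + t' = 3 * k + 1 := ⟨(2 + t') / 3, by omega⟩
              rw [hk] at hd
              have h6 : (3 * k + 1) ^ 2 + (b : ℤ) = 3 * (3 * k ^ 2 + 2 * k) + 1 + b := by ring
              rw [h6] at hd
              have h7 : (3 * (3 * k ^ 2 + 2 * k) + 1 + (b : ℤ)) % 3 = 0 :=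
                Int.emod_eq_zero_of_dvd (by exact_mod_cast hd)
              omega
          · rcases h30 with h30 | h30
            · refine ⟨2, by norm_num, fun j hd => ?_⟩
              obtain ⟨k, hk⟩ : ∃ k : ℤ, 2 + t' = 3 * k := ⟨(2 + t') / 3, by omega⟩
              rw [hk] at hd
              have h6 : (3 * k) ^ 2 + (b : ℤ) = 3 * (3 * k ^ 2) + b := by ring
              rw [h6] at hd
              have h7 : (3 * (3 * k ^ 2) + (b : ℤ)) % 3 = 0 :=
                Int.emod_eq_zero_of_dvd (by exact_mod_cast hd)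
              omega
            · refine ⟨1, by norm_num, fun j hd => ?_⟩
              obtain ⟨k, hk⟩ : ∃ k : ℤ, 1 + t' = 3 * k := ⟨(1 + t') / 3, by omega⟩
              rw [hk] at hd
              have h6 : (3 * k) ^ 2 + (b : ℤ) = 3 * (3 * k ^ 2) + b := by ring
              rw [h6] at hd
              have h7 : (3 * (3 * k ^ 2) + (b : ℤ)) % 3 = 0 :=
                Int.emod_eq_zero_of_dvd (by exact_mod_cast hd)
              omega
      · have hl4 : l ≠ 4 := by
          rintro rfl
          exact absurd hlp (by norm_num)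
        obtain ⟨g, hgd, hgl, hge⟩ := main 1 (fun _ => t')
        obtain ⟨n, hn1, hn2⟩ := Pool.Agent.TH882.TS.wit (fun _ : Fin 1 => (1 : ℤ))
          (fun _ => Or.inl rfl) g (fun j => by rw [hgd j]; norm_num) l hlp
          (fun j hd => by
            rw [hgl j] at hd
            have := Int.le_of_dvd one_pos hd
            omega)
          (by rw [Fin.sum_univ_one, hgd 0]; omega) (fun _ => b)
        refine ⟨n, hn1, fun j hd => hn2 j ?_⟩
        rw [hge j, one_mul, add_comm]
        exact hd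

end Pool.Agent.Results.MP_f1a94e_nt.ShiftsOfClusteredPrimes
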